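import Mathlib

/-!
# No Eulerian collision of Steinhaus graphs has difference `11...10`
-/

set_option autoImplicit false

namespace Pool.Agent.Results.MP_79bdd6_co.KnownPattern

open Finset

/-- `A` is (on the indices below `n`) the Steinhaus matrix generated by the string
`s 1, ..., s (n-1)`. -/
structure IsSteinhaus (n : ℕ) (s : ℕ → ZMod 2) (A : ℕ → ℕ → ZMod 2) : Prop where
  diag : ∀ i, i < n → A i i = 0
  symm : ∀ i j, i < n → j < n → A i j = A j i
  first : ∀ j, 1 ≤ j → j < n → A 0 j = s j
  rule : ∀ i j, i < j → j + 1 < n → A (i + 1) (j + 1) = A i j + A i (j + 1)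

/-- The degree of the vertex `i` of the graph with adjacency matrix `A` on `0, ..., n-1`. -/
def deg (n : ℕ) (A : ℕ → ℕ → ZMod 2) (i : ℕ) : ℕ := ((range n).filter fun j => A i j = 1).card

theorem z2 (x : ZMod 2) : x = 0 ∨ x = 1 := by revert x; decide
theorem add_self (x : ZMod 2) : x + x = 0 := by revert x; decide

theorem sum_eq_card (n : ℕ) (A : ℕ → ℕ → ZMod 2) (i : ℕ) :
    ∑ j ∈ range n, A i j = (deg n A i : ZMod 2) := by
  unfold deg
  rw [Finset.card_filter, Nat.cast_sum]
  refine Finset.sum_congr rfl fun j _ => ?_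
  rcases z2 (A i j) with h | h <;> simp [h]

theorem tele (f : ℕ → ZMod 2) (m : ℕ) : ∑ j ∈ range m, (f (j + 1) + f j) = f m + f 0 := by
  induction m with
  | zero => simp [add_self]
  | succ m ih =>
    rw [sum_range_succ, ih]
    linear_combination add_self (f m)

/-- The parity of the degree of a middle vertex. -/
theorem parity {n : ℕ} {s : ℕ → ZMod 2} {A : ℕ → ℕ → ZMod 2} (h : IsSteinhaus n s A) {i : ℕ}
    (hi : i + 2 < n) : (deg n A (i + 1) : ZMod 2) =
      A i (i + 1) + A i (n - 1) + A 0 (i + 2) + A (i + 1) (i + 2) := by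
  obtain ⟨m, hm⟩ : ∃ m, n = (i + 1) + 1 + m := ⟨n - (i + 2), by omega⟩
  rw [← sum_eq_card, hm, sum_range_add, sum_range_succ, h.diag (i + 1) (by omega)]
  have h1 : ∑ j ∈ range (i + 1), A (i + 1) j = A (i + 1) (i + 2) + A 0 (i + 2) := by
    rw [← tele (fun k => A k (i + 2)) (i + 1)]
    refine sum_congr rfl fun j hj => ?_
    have hj := mem_range.1 hj
    rw [h.symm (i + 1) j (by omega) (by omega)]
    have h2 := h.rule j (i + 1) (by omega) (by omega)
    show A j (i + 1) = A (j + 1) (i + 2) + A j (i + 2)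
    rw [h2]
    linear_combination (-1 : ZMod 2) * add_self (A j (i + 2))
  have h2 : ∑ j ∈ range m, A (i + 1) (i + 1 + 1 + j) = A i (i + 1 + m) + A i (i + 1) := by
    rw [← tele (fun k => A i (i + 1 + k)) m]
    refine sum_congr rfl fun j hj => ?_
    have hj := mem_range.1 hj
    have h3 := h.rule i (i + 1 + j) (by omega) (by omega)
    rw [show i + 1 + 1 + j = i + 1 + j + 1 by ring, h3, show i + 1 + (j + 1) = i + 1 + j + 1 by ring]
    ring
  rw [h1, h2, show i + 1 + 1 + m - 1 = i + 1 + m by omega]
  ring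

/-- The matrix of the difference of the two strings. -/
theorem diff {n : ℕ} {s t : ℕ → ZMod 2} {A B : ℕ → ℕ → ZMod 2} (hA : IsSteinhaus n s A)
    (hB : IsSteinhaus n t B) (hst : ∀ j, 1 ≤ j → j + 1 < n → s j + t j = 1)
    (hst' : s (n - 1) + t (n - 1) = 0) :
    ∀ i j, i < j → j < n → B i j = A i j +
      (if i = 0 then (if j + 1 < n then 1 else 0) else (if j + 1 < n then 0 else 1)) := by
  intro i
  induction i with
  | zero =>
    intro j hj hjn
    rw [if_pos rfl, hA.first j hj hjn, hB.first j hj hjn]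
    by_cases h : j + 1 < n
    · rw [if_pos h]
      linear_combination hst j hj h - add_self (s j)
    · rw [if_neg h]
      have : j = n - 1 := by omega
      rw [this]
      linear_combination hst' - add_self (s (n - 1))
  | succ i ih =>
    intro j hj hjn
    obtain ⟨j, rfl⟩ : ∃ k, j = k + 1 := ⟨j - 1, by omega⟩
    rw [hA.rule i j (by omega) hjn, hB.rule i j (by omega) hjn, ih j (by omega) (by omega),
      ih (j + 1) (by omega) hjn, if_neg (Nat.succ_ne_zero i)]
    by_cases h0 : i = 0
    · simp only [h0, if_true]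
      rw [if_pos (show j + 1 < n by omega)]
      by_cases h : j + 1 + 1 < n
      · rw [if_pos h, if_pos h]
        linear_combination add_self (1 : ZMod 2)
      · rw [if_neg h, if_neg h]
        ring
    · simp only [if_neg h0]
      rw [if_pos (show j + 1 < n by omega)]
      by_cases h : j + 1 + 1 < n
      · rw [if_pos h]
        ring
      · rw [if_neg h]
        ring

/-- A middle vertex has exactly one of the neighbours `0` and `n - 1`. -/
theorem exactly_one {n : ℕ} {s t : ℕ → ZMod 2} {A B : ℕ → ℕ → ZMod 2} (hA : IsSteinhaus n s A)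
    (hB : IsSteinhaus n t B) (hst : ∀ j, 1 ≤ j → j + 1 < n → s j + t j = 1)
    (hst' : s (n - 1) + t (n - 1) = 0) {i : ℕ} (h1 : 1 ≤ i) (hi : i + 1 < n)
    (hd : deg n A i = deg n B i) : A 0 i + A i (n - 1) = 1 := by
  have hD := diff hA hB hst hst'
  have e0 : B 0 i = A 0 i + 1 := by
    rw [hD 0 i (by omega) (by omega), if_pos rfl, if_pos hi]
  have e1 : B i (n - 1) = A i (n - 1) + 1 := by
    rw [hD i (n - 1) (by omega) (by omega), if_neg (by omega), if_neg (by omega)]
  have e2 : ∀ j, 1 ≤ j → j + 1 < n → B i j = A i j := by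
    intro j hj hjn
    rcases lt_trichotomy i j with h | h | h
    · rw [hD i j h (by omega), if_neg (by omega), if_pos hjn, add_zero]
    · rw [← h, hA.diag i (by omega), hB.diag i (by omega)]
    · rw [hA.symm i j (by omega) (by omega), hB.symm i j (by omega) (by omega),
        hD j i h (by omega), if_neg (by omega), if_pos hi, add_zero]
  obtain ⟨m, hm⟩ : ∃ m, n = m + 1 + 1 := ⟨n - 2, by omega⟩
  have key : ∀ C : ℕ → ℕ → ZMod 2, deg n C i =
      (∑ j ∈ range m, if C i (j + 1) = 1 then 1 else 0) + (if C i 0 = 1 then 1 else 0) +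
        (if C i (n - 1) = 1 then 1 else 0) := by
    intro C
    unfold deg
    rw [Finset.card_filter]
    conv_lhs => rw [hm, sum_range_succ, sum_range_succ']
    rw [show n - 1 = m + 1 by omega]
  rw [key A, key B] at hd
  have hs : (∑ j ∈ range m, if A i (j + 1) = 1 then 1 else 0) =
      ∑ j ∈ range m, if B i (j + 1) = 1 then 1 else 0 := by
    refine sum_congr rfl fun j hj => ?_
    have hj := mem_range.1 hj
    rw [e2 (j + 1) (by omega) (by omega)]
  rw [hs, hB.symm i 0 (by omega) (by omega), hA.symm i 0 (by omega) (by omega), e0, e1] at hd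
  revert hd
  rcases z2 (A 0 i) with h | h <;> rcases z2 (A i (n - 1)) with h' | h' <;> rw [h, h'] <;>
    simp [add_self] <;> omega

/-- No two strings whose sum is `11...10` generate Eulerian Steinhaus graphs with the same degree
sequence. -/
theorem result (n : ℕ) (hn : 3 ≤ n) (s t : ℕ → ZMod 2) (A B : ℕ → ℕ → ZMod 2)
    (hA : IsSteinhaus n s A) (hB : IsSteinhaus n t B)
    (hdeg : ∀ i, i < n → deg n A i = deg n B i) (heven : ∀ i, i < n → Even (deg n A i)) :
    ¬ ((∀ j, 1 ≤ j → j + 1 < n → s j + t j = 1) ∧ s (n - 1) + t (n - 1) = 0) := by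
  rintro ⟨hst, hst'⟩
  have hone : ∀ i, 1 ≤ i → i + 1 < n → A 0 i + A i (n - 1) = 1 := fun i h1 hi =>
    exactly_one hA hB hst hst' h1 hi (hdeg i (by omega))
  have hpar : ∀ i, i + 2 < n →
      A i (i + 1) + A i (n - 1) + A 0 (i + 2) + A (i + 1) (i + 2) = 0 := by
    intro i hi
    rw [← parity hA hi]
    obtain ⟨k, hk⟩ := heven (i + 1) (by omega)
    rw [hk]
    push_cast
    exact add_self _
  rcases (show n = 3 ∨ n = 4 ∨ 5 ≤ n by omega) with h3 | h4 | h5
  · subst h3
    have a1 := hone 1 le_rfl (by norm_num)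
    have a2 := hpar 0 (by norm_num)
    have a3 := hA.rule 0 1 (by norm_num) (by norm_num)
    norm_num at a1 a2 a3
    have a4 : (deg 3 A 0 : ZMod 2) = 0 := by
      obtain ⟨k, hk⟩ := heven 0 (by norm_num)
      rw [hk]
      push_cast
      exact add_self _
    rw [← sum_eq_card, sum_range_succ, sum_range_succ, sum_range_succ, sum_range_zero,
      hA.diag 0 (by norm_num)] at a4
    revert a1 a2 a3 a4
    generalize A 0 1 = x
    generalize A 0 2 = y
    generalize A 1 2 = z
    revert x y z
    decide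
  · subst h4
    have a1 := hone 1 le_rfl (by norm_num)
    have a2 := hpar 0 (by norm_num)
    have a3 := hA.rule 0 1 (by norm_num) (by norm_num)
    have a5 := hA.rule 0 2 (by norm_num) (by norm_num)
    norm_num at a1 a2 a3 a5
    have a4 : (deg 4 A 0 : ZMod 2) = 0 := by
      obtain ⟨k, hk⟩ := heven 0 (by norm_num)
      rw [hk]
      push_cast
      exact add_self _
    rw [← sum_eq_card, sum_range_succ, sum_range_succ, sum_range_succ, sum_range_succ,
      sum_range_zero, hA.diag 0 (by norm_num)] at a4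
    revert a1 a2 a3 a4 a5
    generalize A 0 1 = x
    generalize A 0 2 = y
    generalize A 0 3 = w
    generalize A 1 2 = z
    generalize A 1 3 = v
    revert x y z v w
    decide
  · have p1 := hpar 1 (by omega)
    have p2 := hpar 2 (by omega)
    have o1 := hone 1 le_rfl (by omega)
    have o2 := hone 2 (by norm_num) (by omega)
    have r1 := hA.rule 0 1 (by norm_num) (by omega)
    have r2 := hA.rule 0 2 (by norm_num) (by omega)
    have r3 := hA.rule 0 3 (by norm_num) (by omega)
    have r4 := hA.rule 1 2 (by norm_num) (by omega)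
    have r5 := hA.rule 1 3 (by norm_num) (by omega)
    have r6 := hA.rule 2 3 (by norm_num) (by omega)
    norm_num at p1 p2 r1 r2 r3 r4 r5 r6
    revert p1 p2 o1 o2 r1 r2 r3 r4 r5 r6
    generalize A 1 (n - 1) = v1
    generalize A 2 (n - 1) = v2
    generalize A 0 1 = x1
    generalize A 0 2 = x2
    generalize A 0 3 = x3
    generalize A 0 4 = x4
    generalize A 1 2 = y2
    generalize A 1 3 = y3
    generalize A 1 4 = y4
    generalize A 2 3 = w3
    generalize A 2 4 = w4
    generalize A 3 4 = w5
    intro p1 p2 o1 o2 r1 r2 r3 r4 r5 r6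
    rcases z2 x1 with h1 | h1 <;> rcases z2 x2 with h2 | h2 <;> rcases z2 x3 with h3 | h3 <;>
      rcases z2 x4 with h4 | h4 <;> rcases z2 v1 with h5 | h5 <;> rcases z2 v2 with h6 | h6 <;>
      subst h1 h2 h3 h4 h5 h6 <;> subst r1 r2 r3 <;> subst r4 r5 <;> subst r6 <;>
      revert p1 p2 o1 o2 <;> decide

end Pool.Agent.Results.MP_79bdd6_co.KnownPattern
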