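import Pool.Agent.DYM.Bridge

/-!
# A regular Steinhaus graph of odd degree has exactly two vertices
-/

set_option autoImplicit false

namespace Pool.Agent.Results.MP_79bdd6_co.OddRegular

/-- A Steinhaus graph on `n ≥ 2` vertices all of whose vertices have the same odd degree is the
complete graph on two vertices. -/
theorem result :
    ∀ n : ℕ, 2 ≤ n → ∀ A : ℕ → ℕ → ZMod 2,
      (∀ i, i < n → A i i = 0) →
      (∀ i j, i < n → j < n → A i j = A j i) →
      (∀ i j, i < j → j + 1 < n → A (i + 1) (j + 1) = A i j + A i (j + 1)) →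
      ∀ r : ℕ, Odd r →
      (∀ i, i < n → ((Finset.range n).filter (fun j => A i j = 1)).card = r) →
      n = 2 :=
  Pool.Agent.DYM.odd_matrix

end Pool.Agent.Results.MP_79bdd6_co.OddRegular
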