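import Pool.Agent.DYM.Bridge

/-!
# Eulerian Steinhaus graphs with palindromic strings are determined by their degrees modulo 4
-/

set_option autoImplicit false

namespace Pool.Agent.Results.MP_79bdd6_co.PalEulerian

/-- Two Steinhaus matrices on `n` vertices with palindromic first rows (`x_j = x_{n-j}`), whose
vertices have even degrees which agree modulo 4, have the same first row. -/
theorem result :
    ∀ n : ℕ, ∀ A B : ℕ → ℕ → ZMod 2,
      (∀ i, i < n → A i i = 0) →
      (∀ i j, i < n → j < n → A i j = A j i) →
      (∀ i j, i < j → j + 1 < n → A (i + 1) (j + 1) = A i j + A i (j + 1)) →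
      (∀ i, i < n → B i i = 0) →
      (∀ i j, i < n → j < n → B i j = B j i) →
      (∀ i j, i < j → j + 1 < n → B (i + 1) (j + 1) = B i j + B i (j + 1)) →
      (∀ i, i < n → ((Finset.range n).filter (fun j => A i j = 1)).card ≡
        ((Finset.range n).filter (fun j => B i j = 1)).card [MOD 4]) →
      (∀ i, i < n → Even ((Finset.range n).filter (fun j => A i j = 1)).card) →
      (∀ j, 1 ≤ j → j < n → A 0 j = A 0 (n - j)) →
      (∀ j, 1 ≤ j → j < n → B 0 j = B 0 (n - j)) →
      ∀ j, j < n → A 0 j = B 0 j :=
  Pool.Agent.DYM.pal_matrix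

end Pool.Agent.Results.MP_79bdd6_co.PalEulerian
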