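import Pool.Agent.DYM.TruncC

/-!
# Eulerian Steinhaus graphs with strings `w0`, `w` a palindrome: degrees modulo 4
-/

set_option autoImplicit false

namespace Pool.Agent.Results.MP_79bdd6_co.TruncPal

/-- Two Steinhaus matrices on `n` vertices whose first rows are palindromes up to the last entry
(`x_j = x_{n-1-j}` for `1 ≤ j ≤ n - 2`), whose vertices have even degrees which agree modulo 4: they
have the same first row, or `n ≡ 1 (mod 3)` and the first rows differ (up to the last entry)
exactly at the multiples of 3 (`n` even), at the non-multiples of 3 (`n` odd). -/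
theorem result :
    ∀ n : ℕ, ∀ A B : ℕ → ℕ → ZMod 2,
      (∀ i, i < n → A i i = 0) →
      (∀ i j, i < n → j < n → A i j = A j i) →
      (∀ i j, i < j → j + 1 < n → A (i + 1) (j + 1) = A i j + A i (j + 1)) →
      (∀ i, i < n → B i i = 0) →
      (∀ i j, i < n → j < n → B i j = B j i) →
      (∀ i j, i < j → j + 1 < n → B (i + 1) (j + 1) = B i j + B i (j + 1)) →
      (∀ i, i < n → ((Finset.range n).filter (fun j => A i j = 1)).card ≡
        ((Finset.range n).filter (fun j => B i j = 1)).card [MOD 4]) →
      (∀ i, i < n → Even ((Finset.range n).filter (fun j => A i j = 1)).card) →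
      (∀ j, 1 ≤ j → j + 1 < n → A 0 j = A 0 (n - 1 - j)) →
      (∀ j, 1 ≤ j → j + 1 < n → B 0 j = B 0 (n - 1 - j)) →
      (∀ j, j < n → A 0 j = B 0 j) ∨
      (n % 3 = 1 ∧ ∀ j, 1 ≤ j → j + 1 < n → A 0 j + B 0 j =
        if n % 2 = 0 then (if j % 3 = 0 then 1 else 0) else (if j % 3 = 0 then 0 else 1)) :=
  Pool.Agent.DYM.trunc_matrix

end Pool.Agent.Results.MP_79bdd6_co.TruncPal
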